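import Mathlib
import Pool.Agent.Helper59_Vir.Two

set_option autoImplicit false

/-!
# A two-point Kazdan-Warner obstruction for the Paneitz curvature on `S^4`

`cf a A x = a - ⟪a, x⟫ x + A x` (with `a ∈ ℝ^5` and `A` skew) are the conformal vector fields of
`S^4`; `dd Q x v` is the derivative of `Q` at `x` in the direction of the tangent vector `v`.
-/

namespace Pool.Agent.Helper21_PQP.Former.TwoPointObstruction

open Pool.Agent.Helper42_Paneitz Pool.Agent.Helper82_Vir Pool.Agent.Helper59_Vir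
open scoped Manifold ContDiff InnerProductSpace
open Set

/-- `A` is skew-symmetric. -/
def Skew (A : E5 →L[ℝ] E5) : Prop := ∀ v : E5, ⟪A v, v⟫_ℝ = 0

/-- the two-point form of the conformal field `cf a A`: `ω(x, y) = ⟪a, x - y⟫ - ⟪A x, y⟫` -/
noncomputable def om (a : E5) (A : E5 →L[ℝ] E5) (x y : S4) : ℝ :=
  ⟪a, (x : E5) - (y : E5)⟫_ℝ - ⟪A (x : E5), (y : E5)⟫_ℝ

/-- `X Q ≥ 0` on `{Q > 0}`, `Y Q ≥ 0` on `{Q < 0}` and `ω_{X - Y}(x, y) ≥ 0` whenever
`Q x > 0 > Q y`, for `X = cf a A` and `Y = cf b B`. -/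
def Weak (Q : S4 → ℝ) (a b : E5) (A B : E5 →L[ℝ] E5) : Prop :=
  (∀ x, 0 < Q x → 0 ≤ dd Q x (cf a A x)) ∧ (∀ x, Q x < 0 → 0 ≤ dd Q x (cf b B x)) ∧
    ∀ x y, 0 < Q x → Q y < 0 → 0 ≤ om (a - b) (A - B) x y

/-- one of the inequalities of `Weak` is strict somewhere -/
def Strict (Q : S4 → ℝ) (a b : E5) (A B : E5 →L[ℝ] E5) : Prop :=
  (∃ x, 0 < Q x ∧ 0 < dd Q x (cf a A x)) ∨ (∃ x, Q x < 0 ∧ 0 < dd Q x (cf b B x)) ∨
    ∃ x y, 0 < Q x ∧ Q y < 0 ∧ 0 < om (a - b) (A - B) x y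

/-- the zonal function with profile `q` and pole `p` -/
noncomputable def zon (q : ℝ → ℝ) (p : E5) (x : S4) : ℝ := q ⟪p, (x : E5)⟫_ℝ

/-- **First part.** Let `Q` be a smooth function on `S^4` and `X = cf a A`, `Y = cf b B` conformal
vector fields such that `X Q ≥ 0` on `{Q > 0}`, `Y Q ≥ 0` on `{Q < 0}` and, for all `x ∈ {Q > 0}`
and `y ∈ {Q < 0}`, `⟪a - b, x - y⟫ ≥ ⟪(A - B) x, y⟫`.  If one of these inequalities is strict
somewhere, then `Q` is not the Paneitz curvature of a metric conformal to the round one.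

**Second part.** A zonal function `Q x = q ⟪p, x⟫` (`q` smooth, `p` a unit vector) whose profile is
nondecreasing where it is positive is a Paneitz curvature if and only if `Q` is a positive
constant. -/
theorem result :
    (∀ (Q : S4 → ℝ) (a b : E5) (A B : E5 →L[ℝ] E5), ContMDiff (𝓡 4) 𝓘(ℝ, ℝ) ∞ Q → Skew A →
      Skew B → Weak Q a b A B → Strict Q a b A B → ¬ IsPaneitzCurvature Q) ∧
    (∀ (q : ℝ → ℝ) (p : E5), ContDiff ℝ ∞ q → ‖p‖ = 1 →
      (∀ t ∈ Ioo (-1 : ℝ) 1, 0 < q t → 0 ≤ deriv q t) →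
      (IsPaneitzCurvature (zon q p) ↔ ∃ c : ℝ, 0 < c ∧ ∀ x, zon q p x = c)) := by
  refine ⟨fun Q a b A B hQ hA hB h hs => ?_, fun q p hq hp hm => zonal hq hp hm⟩
  obtain ⟨h1, h2, h3⟩ := h
  refine two_field (sm_of_contMDiff hQ) a b hA hB h1 h2
    (fun x y hx hy => sub_nonneg.1 (h3 x y hx hy)) ?_
  rcases hs with h | h | ⟨x, y, hx, hy, hxy⟩
  · exact Or.inl h
  · exact Or.inr (Or.inl h)
  · exact Or.inr (Or.inr ⟨x, y, hx, hy, sub_pos.1 hxy⟩)

end Pool.Agent.Helper21_PQP.Former.TwoPointObstruction
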